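import Pool.Agent.Helper52.SX.Goals
import Pool.Agent.Helper81.CompC
import Pool.Agent.Helper3.DT.PTL

/-!
# SX-FLT: search for tuples of decision lists with a truth table (assembly)
-/

namespace Pool.Agent.Helper67.SX

open Pool.Agent.Helper81.CC Pool.Agent.Helper78.DT Pool.Agent.Helper51.ZP Pool.Agent.Helper65.CS
open Pool.Agent.Helper52.SX
open scoped Classical

theorem flt (hLop : LptStmt) (hFin : FntStmt) (hPtr : PltStmt) (hBrf : BrtStmt) : FltStmt := by
  intro hC c w e
  have hPtl : Pool.Agent.Helper78.DT.PtlStmt := Pool.Agent.Helper3.DT.ptl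
  obtain ⟨g, hg, hcnt⟩ := hC e (c + 4)
  obtain ⟨L0, hL⟩ := hLop c w e g hcnt
  obtain ⟨h, hh, hbf⟩ := hBrf (2 ^ L0)
  refine ⟨fun y => if L0 ≤ lg y.2.2 then srchT g y else h (y.1, y.2.1), ?_, ?_⟩
  · have hN : PolyTime (fun y : ℕ × Tup × ℕ => y.2.2) := by fun_prop
    have hlg : PolyTime (fun y : ℕ × Tup × ℕ => lg y.2.2) :=
      (hPtl (ℕ × Tup × ℕ) (fun y => y.2.2) (fun y => y.2.2) (fun y => y.2.2) hN hN hN).1
    have h2 : PolyTime (fun y : ℕ × Tup × ℕ => h (y.1, y.2.1)) := by fun_prop
    exact PolyTime.itep (PolyTime.decide_le (PolyTime.const L0) hlg) (hPtr g hg) h2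
  · intro n N z hn hNF hr hfr
    have hL0 : (0 : ℝ) < (lg N : ℝ) := by
      have : 0 < lg N := by unfold lg; omega
      exact_mod_cast this
    have h10 : 0 < 1 / (lg N : ℝ) ^ c := by positivity
    by_cases hlg : L0 ≤ lg N
    · have hif : (fun y : ℕ × Tup × ℕ => if L0 ≤ lg y.2.2 then srchT g y else h (y.1, y.2.1))
          (n, z, N) = srchT g (n, z, N) := if_pos hlg
      rw [hif]
      obtain ⟨h1, h2, h3⟩ := hL n N z hlg hn hNF hr
      have h9 : 1 / (4 * (lg N : ℝ) ^ c) = 1 / (lg N : ℝ) ^ c / 4 := by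
        field_simp
      have h11 : 0 < fract n (stT g n z N (TT (lg N))).2 := by
        rw [h9] at h3
        linarith
      exact hFin n _ _ z _ h1 h2 h11
    · have hif : (fun y : ℕ × Tup × ℕ => if L0 ≤ lg y.2.2 then srchT g y else h (y.1, y.2.1))
          (n, z, N) = h (n, z) := if_neg hlg
      rw [hif]
      refine hbf n z ?_ ?_
      · have h1 : N < 2 ^ (Nat.log 2 N + 1) := Nat.lt_pow_succ_log_self (by norm_num) _
        have h2 : lg N = Nat.log 2 N + 2 := rfl
        have h3 : (2 : ℕ) ^ (Nat.log 2 N + 1) ≤ 2 ^ L0 :=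
          Nat.pow_le_pow_right (by norm_num) (by omega)
        omega
      · have hpos : 0 < fract n z := lt_of_lt_of_le h10 hfr
        have hcard : 0 < Nat.card {r : Fin n → Bool // tv r z = true} := by
          rcases Nat.eq_zero_or_pos (Nat.card {r : Fin n → Bool // tv r z = true}) with h0 | h0
          · unfold fract at hpos
            rw [h0] at hpos
            simp at hpos
          · exact h0
        obtain ⟨r, hr'⟩ := (Nat.card_pos_iff.1 hcard).1
        exact ⟨r, hr'⟩

end Pool.Agent.Helper67.SX
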